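import Pool.Agent.H62.BoxPow

set_option autoImplicit false

namespace Pool.Agent.Results.MP_2d934b_pr.AllClasses

open Pool.Agent.H62.Box

theorem result (r : ℕ) (hr : 1 ≤ r) : ∃ d : ℕ, 1 ≤ d ∧ ∃ A : Set (Fin d → Bool),
    ∀ t t' : Br, t.size = r → t'.size = r → t.pw A = t'.pw A → Br.Eqv t t' :=
  power r hr

end Pool.Agent.Results.MP_2d934b_pr.AllClasses
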